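import Pool.Agent.H43.FX.FlexFin

/-!
# FLEX minus AD is nonempty

A flexible smooth affine fourfold without the algebraic density property.  The ring is the part
of weight 0 (u of weight 1, w of weight -1) of `ℂ[u, w, t, x_i, y_j]`, where `u, w` are pairs of
variables, `x_i = (t - z_i)/(u₁ - a_i u₂)³`, `y_j = (t - z'_j)/(w₁ - b_j w₂)³`, with
`a = b = (1,-1,2,-2)`, `z = (0,1,2,3)`, `z' = (4,5,6,7)`.
-/

namespace Pool.Agent.Results.MP_45192b_ag.FlexNotAD

open Pool.Agent.H29.Flex Pool.Agent.H43.FX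

theorem result : ∃ (A : Type) (_ : CommRing A) (_ : Algebra ℂ A),
    IsAffineManifold A 4 ∧ IsFlexible A ∧ ¬ HasADP A := by
  have inj1 : Function.Injective (![1, -1, 2, -2] : Fin 4 → ℂ) := by
    intro i j h
    fin_cases i <;> fin_cases j <;> first | rfl | (exfalso; revert h; simp; try norm_num)
  have inj2 : Function.Injective (![0, 1, 2, 3] : Fin 4 → ℂ) := by
    intro i j h
    fin_cases i <;> fin_cases j <;> first | rfl | (exfalso; revert h; simp; try norm_num)
  have inj3 : Function.Injective (![4, 5, 6, 7] : Fin 4 → ℂ) := by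
    intro i j h
    fin_cases i <;> fin_cases j <;> first | rfl | (exfalso; revert h; simp; try norm_num)
  have hne : ∀ i, (![1, -1, 2, -2] : Fin 4 → ℂ) i ≠ 0 := by
    intro i
    fin_cases i <;> simp
  have hzz : ∀ i j, (![0, 1, 2, 3] : Fin 4 → ℂ) i ≠ (![4, 5, 6, 7] : Fin 4 → ℂ) j := by
    intro i j
    fin_cases i <;> fin_cases j <;> (simp; try norm_num)
  exact ⟨Aring ![1, -1, 2, -2] ![1, -1, 2, -2] ![0, 1, 2, 3] ![4, 5, 6, 7], inferInstance,
    inferInstance, flex_not_adp hasBez hasBez inj1 inj1 hne hne inj2 inj3 hzz⟩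

end Pool.Agent.Results.MP_45192b_ag.FlexNotAD
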