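import Mathlib
import Pool.Agent.H29.Flex.Surf

/-!
# Flexible affine surfaces have the algebraic density property
-/

namespace Pool.Agent.Results.MP_45192b_ag.FlexibleSurfaces

open Pool.Agent.H29.Flex

/-- **Every flexible affine-algebraic manifold of dimension two has the algebraic density
property.** -/
theorem result {A : Type*} [CommRing A] [Algebra ℂ A] (hA : IsAffineManifold A 2)
    (hF : IsFlexible A) : HasADP A :=
  hasADP_of_surface hA hF

end Pool.Agent.Results.MP_45192b_ag.FlexibleSurfaces
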