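import Mathlib
import Pool.Agent.H29.Flex.Crit

/-!
# A criterion for the algebraic density property of flexible manifolds
-/

namespace Pool.Agent.Results.MP_45192b_ag.IntegralCriterion

open Pool.Agent.H29.Flex

/-- **A flexible affine-algebraic manifold of dimension at least two whose regular functions are
integral over the algebra generated by the first integrals of nonzero complete algebraic vector
fields has the algebraic density property.** -/
theorem result {A : Type*} [CommRing A] [Algebra ℂ A] {n : ℕ} (hn : 2 ≤ n)
    (hA : IsAffineManifold A n) (hF : IsFlexible A)
    (hint : ∀ a : A, IsIntegral (Algebra.adjoin ℂ (firstIntegrals A)) a) : HasADP A :=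
  hasADP_of_integral hn hA hF hint

end Pool.Agent.Results.MP_45192b_ag.IntegralCriterion
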